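import Pool.Agent.Helper32.KBV.Kill

/-!
# Kobon triangles: balance of the full vertices
-/

namespace Pool.Agent.Helper32.KBV

open Pool.Agent.Helper23.KB Finset

variable {n : ℕ} (K : KM n)

/-- simple neighbour of a full vertex -/
def sim (h : K.H) : Bool := K.vf h && decide (K.m (K.rv h) = 2)

/-- unclaimed slot of the group -/
noncomputable def us (o : Bool) (h : K.H) : Bool := K.vf h && !(K.clm o h)

/-- a simple neighbour leaves this slot unclaimed -/
noncomputable def al (o : Bool) (h : K.H) : Bool :=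
  sim K h && !(K.clm o (K.r (!o) (K.r (!o) h)))

lemma sum_r (o : Bool) (f : K.H → ℕ) : ∑ h, f (K.r o h) = ∑ h, f h := by
  have := Equiv.sum_comp (K.rE o) f
  simpa using this

lemma m_side {h : K.H} (hv : K.vf h = true) (o : Bool) :
    K.m (K.rv (K.r o h)) = K.m (K.rv (K.r (!o) (K.rv h))) := by
  have := K.third (vf_tr K hv o)
  rw [this, K.m_r]

lemma spc_m {h : K.H} (hs : K.spc h = true) (o : Bool) : K.m (K.rv (K.r o h)) = 3 := by
  rw [spc_iff] at hs
  rw [m_side K hs.1 o]
  cases o
  · exact hs.2.2.1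
  · exact hs.2.2.2.2.1

lemma spc_sim {h : K.H} (hs : K.spc h = true) : sim K h = true := by
  rw [spc_iff] at hs
  unfold sim
  rw [hs.1, s4_m K hs.2.1]
  rfl

lemma spc_vf {h : K.H} (hs : K.spc h = true) : K.vf h = true := by
  rw [spc_iff] at hs
  exact hs.1

lemma spc_clm (hR : StRange) {h : K.H} (hs : K.spc h = true) (o : Bool) :
    K.clm o (K.r (!o) (K.r (!o) (K.r (!o) h))) = false := by
  have := spc_kill K hR hs
  cases o
  · exact this.1
  · exact this.2

lemma ims_add (h : K.H) : (K.ims h).toNat + (K.spc h).toNat = (sim K h).toNat := by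
  have e : K.ims h = (sim K h && !(K.spc h)) := rfl
  rw [e]
  cases h1 : K.spc h
  · simp
  · rw [spc_sim K h1]; rfl

lemma b1 (h : K.H) : (K.vf h).toNat ≤ (us K true h).toNat + (us K false h).toNat +
    (K.fg h).toNat + (K.spc h).toNat + (sim K (K.r true h)).toNat + (sim K (K.r false h)).toNat := by
  unfold us KM.fg sim
  rw [vf_r_eq, vf_r_eq, K.r_true, K.r_false]
  cases K.vf h <;> cases K.clm true h <;> cases K.clm false h <;> cases K.spc h <;>
    cases decide (K.m (K.rv (K.nx h)) = 2) <;> cases decide (K.m (K.rv (K.nx.symm h)) = 2) <;>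
    decide

lemma b2 (hR : StRange) (h : K.H) : (sim K h).toNat ≤ (al K true h).toNat + (al K false h).toNat := by
  cases hs : sim K h
  · simp
  · have hs' := hs
    unfold sim at hs'
    simp only [Bool.and_eq_true, decide_eq_true_eq] at hs'
    have h5 := five K hR hs'.1 hs'.2
    unfold al
    rw [hs]
    simp only [Bool.not_true, Bool.not_false, Bool.true_and]
    cases h1 : K.clm true (K.r false (K.r false h)) <;>
      cases h2 : K.clm false (K.r true (K.r true h))
    · decide
    · decide
    · decide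
    · exact (h5 h1 h2).elim

lemma b3 (hR : StRange) (o : Bool) (h : K.H) :
    (al K o (K.r o (K.r o h))).toNat + (K.spc (K.r o (K.r o (K.r o h)))).toNat ≤
      (us K o h).toNat := by
  cases hs : K.spc (K.r o (K.r o (K.r o h)))
  · unfold al us
    rw [K.r_r, K.r_r]
    cases h1 : sim K (K.r o (K.r o h))
    · simp
    · unfold sim at h1
      rw [vf_r_eq, vf_r_eq] at h1
      simp only [Bool.and_eq_true] at h1
      rw [h1.1]
      simp
  · have h1 := spc_clm K hR hs o
    rw [K.r_r, K.r_r, K.r_r] at h1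
    have h2 := spc_vf K hs
    rw [vf_r_eq, vf_r_eq, vf_r_eq] at h2
    have h3 := spc_m K hs (!o)
    rw [K.r_r] at h3
    unfold al us sim
    rw [h1, h2, h3, vf_r_eq, vf_r_eq, h2]
    simp

lemma b4 (hR : StRange) (o : Bool) :
    ∑ h, (al K o h).toNat + ∑ h, (K.spc h).toNat ≤ ∑ h, (us K o h).toNat := by
  have e1 : ∑ h, (al K o (K.r o (K.r o h))).toNat = ∑ h, (al K o h).toNat := by
    rw [sum_r K o (fun h => (al K o (K.r o h)).toNat), sum_r K o (fun h => (al K o h).toNat)]
  have e2 : ∑ h, (K.spc (K.r o (K.r o (K.r o h)))).toNat = ∑ h, (K.spc h).toNat := by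
    rw [sum_r K o (fun h => (K.spc (K.r o (K.r o h))).toNat),
      sum_r K o (fun h => (K.spc (K.r o h)).toNat), sum_r K o (fun h => (K.spc h).toNat)]
  rw [← e1, ← e2, ← Finset.sum_add_distrib]
  exact Finset.sum_le_sum (fun h _ => b3 K hR o h)

theorem tVB (hR : StRange) : StVB := by
  intro n K
  have s1 := Finset.sum_le_sum (fun h (_ : h ∈ (univ : Finset K.H)) => b1 K h)
  have s2 := Finset.sum_le_sum (fun h (_ : h ∈ (univ : Finset K.H)) => b2 K hR h)
  have s3 : ∑ h, (K.ims h).toNat + ∑ h, (K.spc h).toNat = ∑ h, (sim K h).toNat := by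
    rw [← Finset.sum_add_distrib]
    exact Finset.sum_congr rfl (fun h _ => ims_add K h)
  have s4 := b4 K hR true
  have s5 := b4 K hR false
  have e1 := sum_r K true (fun h => (sim K h).toNat)
  have e2 := sum_r K false (fun h => (sim K h).toNat)
  simp only [Finset.sum_add_distrib] at s1 s2 ⊢
  change _ ≤ _ + 2 * (∑ h, (us K true h).toNat + ∑ h, (us K false h).toNat)
  beta_reduce at e1 e2
  omega

end Pool.Agent.Helper32.KBV
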