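import Pool.Agent.Helper23.KB.St

/-!
# Kobon triangles: incidence lemmas for the full vertices
-/

namespace Pool.Agent.Helper32.KBV

open Pool.Agent.Helper23.KB Finset

variable {n : ℕ} (K : KM n)

/-- sign of the direction -/
def sg (h : K.H) : ℤ := if K.dr h then 1 else -1

lemma sg_op (h : K.H) : sg K (K.op h) = - sg K h := by
  unfold sg
  rw [K.dr_op']
  cases K.dr h <;> simp

lemma sg_rv {h : K.H} (hr : K.rv h ≠ h) : sg K (K.rv h) = - sg K h := by
  unfold sg
  rw [K.dr_rv h hr]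
  cases K.dr h <;> simp

lemma sg_cases (h : K.H) : sg K h = 1 ∨ sg K h = -1 := by
  unfold sg
  cases K.dr h <;> simp

lemma sg_sq (h : K.H) : sg K h * sg K h = 1 := by
  rcases sg_cases K h with e | e <;> rw [e] <;> norm_num

lemma ps_rv' {h : K.H} (hr : K.rv h ≠ h) : K.ps (K.rv h) = K.ps h + sg K h := K.ps_rv h hr

lemma ln_fw (h : K.H) : K.ln (K.fw h) = K.ln h := by
  unfold KM.fw
  rw [K.ln_op', K.ln_rv]

lemma vt_fw (h : K.H) : K.vt (K.fw h) = K.vt (K.rv h) := by
  unfold KM.fw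
  rw [K.vt_op]

lemma sg_fw {h : K.H} (hr : K.rv h ≠ h) : sg K (K.fw h) = sg K h := by
  unfold KM.fw
  rw [sg_op, sg_rv K hr, neg_neg]

lemma ps_fw {h : K.H} (hr : K.rv h ≠ h) : K.ps (K.fw h) = K.ps h + sg K h := by
  unfold KM.fw
  rw [K.ps_op, ps_rv' K hr]

lemma fw_iter {β : K.H} : ∀ (j : ℕ), (∀ i < j, K.rv (K.fw^[i] β) ≠ K.fw^[i] β) →
    K.ln (K.fw^[j] β) = K.ln β ∧ sg K (K.fw^[j] β) = sg K β ∧
      K.ps (K.fw^[j] β) = K.ps β + j * sg K β := by
  intro j
  induction j with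
  | zero => intro _; simp
  | succ j ih =>
    intro hj
    obtain ⟨h1, h2, h3⟩ := ih (fun i hi => hj i (by omega))
    have hr := hj j (by omega)
    rw [Function.iterate_succ_apply']
    refine ⟨by rw [ln_fw, h1], by rw [sg_fw K hr, h2], ?_⟩
    rw [ps_fw K hr, h3, h2]
    push_cast
    ring

/-- the vertex is on the line -/
def On (L : Fin n) (v : K.V) : Prop := ∃ a, K.ln a = L ∧ K.vt a = v

lemma on_self (h : K.H) : On K (K.ln h) (K.vt h) := ⟨h, rfl, rfl⟩

lemma on_rv (h : K.H) : On K (K.ln h) (K.vt (K.rv h)) := ⟨K.rv h, K.ln_rv h, rfl⟩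

lemma on_meet {L L' : Fin n} {v w : K.V} (h1 : On K L v) (h2 : On K L' v) (h3 : On K L w)
    (h4 : On K L' w) (hne : L ≠ L') : v = w := by
  obtain ⟨a, rfl, rfl⟩ := h1
  obtain ⟨b, rfl, hb⟩ := h2
  obtain ⟨a', ha', rfl⟩ := h3
  obtain ⟨b', hb', hb2⟩ := h4
  exact K.meet a b a' b' hb.symm hb2.symm ha'.symm hb'.symm hne

/-- the two ends of an edge are different vertices -/
lemma vt_rv_ne {h : K.H} (hr : K.rv h ≠ h) : K.vt (K.rv h) ≠ K.vt h := by
  intro e
  have h1 := K.ps_vt (K.rv h) h (K.ln_rv h) e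
  have h2 := ps_rv' K hr
  rcases sg_cases K h with e | e <;> rw [e] at h2 <;> omega

/-- a line through both ends of an edge is the line of the edge -/
lemma on_edge {h : K.H} (hr : K.rv h ≠ h) {L : Fin n} (h1 : On K L (K.vt h))
    (h2 : On K L (K.vt (K.rv h))) : L = K.ln h := by
  by_contra hne
  exact vt_rv_ne K hr (on_meet K h2 (on_rv K h) h1 (on_self K h) hne)

lemma vf_m {h : K.H} (hv : K.vf h = true) : K.m h = 4 := by
  unfold KM.vf at hv
  simp only [Bool.and_eq_true, decide_eq_true_eq] at hv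
  exact hv.1

lemma vf_nx {h : K.H} (hv : K.vf h = true) : K.vf (K.nx h) = true := by
  have hm := vf_m K hv
  unfold KM.vf at hv ⊢
  simp only [Bool.and_eq_true, decide_eq_true_eq] at hv ⊢
  refine ⟨by rw [K.m_nx, hm], fun k => ?_⟩
  rw [← Function.iterate_succ_apply K.nx]
  by_cases hk : (k : ℕ) = 7
  · rw [hk]
    have := K.per h
    rw [hm] at this
    change K.nx^[8] h = h at this
    change K.tri (K.nx^[8] h) = true
    rw [this]
    exact hv.2 0
  · exact hv.2 ⟨k + 1, by omega⟩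

lemma vf_it {h : K.H} (hv : K.vf h = true) (k : ℕ) : K.vf (K.nx^[k] h) = true := by
  induction k with
  | zero => exact hv
  | succ k ih => rw [Function.iterate_succ_apply']; exact vf_nx K ih

lemma symm_it {h : K.H} (hm : K.m h = 4) : K.nx.symm h = K.nx^[7] h := by
  have := K.per h
  rw [hm] at this
  change K.nx^[8] h = h at this
  apply K.nx.injective
  rw [Equiv.apply_symm_apply, ← Function.iterate_succ_apply' K.nx]
  exact this.symm

lemma vf_r {h : K.H} (hv : K.vf h = true) (o : Bool) : K.vf (K.r o h) = true := by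
  cases o
  · rw [K.r_false, symm_it K (vf_m K hv)]
    exact vf_it K hv 7
  · exact vf_nx K hv

lemma vf_r_eq (h : K.H) (o : Bool) : K.vf (K.r o h) = K.vf h := by
  cases h1 : K.vf h
  · cases h2 : K.vf (K.r o h)
    · rfl
    · have := vf_r K h2 (!o)
      rw [K.r_r, h1] at this
      exact this.symm
  · exact vf_r K h1 o

lemma vf_tri {h : K.H} (hv : K.vf h = true) : K.tri h = true := by
  unfold KM.vf at hv
  simp only [Bool.and_eq_true, decide_eq_true_eq] at hv
  exact hv.2 0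

lemma vf_tr {h : K.H} (hv : K.vf h = true) (o : Bool) : K.tr o h = true := by
  cases o
  · exact vf_tri K (vf_r K hv false)
  · exact vf_tri K hv

lemma vf_Dd {h : K.H} (hv : K.vf h = true) : K.Dd h = true :=
  (K.Dd_iff true h).mpr ⟨vf_tr K hv _, vf_tr K hv _⟩

lemma vf_ray {h : K.H} (hv : K.vf h = true) : K.rv h ≠ h := K.tr_ray (vf_tr K hv true)

/-- different lines for small rotations -/
lemma ln_r_ne (o : Bool) (h : K.H) : K.ln (K.r o h) ≠ K.ln h := by
  have hm := K.two_le h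
  cases o
  · have := K.ln_ne (K.nx.symm h) 1 (by norm_num) (by rw [K.m_symm]; omega)
    change K.ln (K.nx (K.nx.symm h)) ≠ _ at this
    rw [Equiv.apply_symm_apply] at this
    exact this.symm
  · exact K.ln_ne h 1 (by norm_num) (by omega)

lemma ln_r2_ne (o : Bool) {h : K.H} (hm : 3 ≤ K.m h) : K.ln (K.r o (K.r o h)) ≠ K.ln h := by
  cases o
  · have := K.ln_ne (K.nx.symm (K.nx.symm h)) 2 (by norm_num) (by rw [K.m_symm, K.m_symm]; omega)
    change K.ln (K.nx (K.nx (K.nx.symm (K.nx.symm h)))) ≠ _ at this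
    rw [Equiv.apply_symm_apply, Equiv.apply_symm_apply] at this
    exact this.symm
  · exact K.ln_ne h 2 (by norm_num) (by omega)

lemma m_sl (o : Bool) (β : K.H) : K.m (K.sl o β).1 = K.m β := by
  unfold KM.sl
  simp

/-- a claimed slot of a full vertex is reached from a start -/
lemma lead_of_clm {o : Bool} {β : K.H} (hv : K.vf β = true) (hc : K.clm o β = true) :
    ∃ s, K.Lead s (K.sl o β) := by
  unfold KM.clm at hc
  rw [K.rc_iff] at hc
  obtain ⟨s, k, hs, hw⟩ := hc
  refine ⟨s, hs, ⟨k, hw⟩, ?_⟩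
  intro hcont
  have := hcont.2
  rw [m_sl, vf_m K hv] at this
  omega

/-- the apex of a claim on a slot of a full vertex -/
lemma apex (hR : StRange) {s : K.St} {o : Bool} {β : K.H} (hv : K.vf β = true)
    (hl : K.Lead s (K.sl o β)) :
    ∃ A : K.H, K.ln A = K.ln β ∧ 1 ≤ sg K β * (K.ps A - K.ps β) ∧
      K.vt A = K.vt (K.rv (K.r (!s.2) s.1)) ∧
      On K (K.ln (K.r o (K.rv (K.r o (K.r o β))))) (K.vt A) := by
  obtain ⟨⟨j, hj, hj2⟩, a, ha, ha2⟩ := hR n K s β o hv hl
  have hray : ∀ i ≤ j, K.rv (K.fw^[i] β) ≠ K.fw^[i] β := fun i hi => K.tr_ray (hj i hi)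
  obtain ⟨h1, h2, h3⟩ := fw_iter K j (fun i hi => hray i hi.le)
  refine ⟨K.rv (K.fw^[j] β), by rw [K.ln_rv, h1], ?_, hj2, a, ha, by rw [ha2, hj2]⟩
  rw [ps_rv' K (hray j le_rfl), h3, h2]
  have : sg K β * (K.ps β + j * sg K β + sg K β - K.ps β) =
      (j + 1) * (sg K β * sg K β) := by ring
  rw [this, sg_sq]
  omega

/-- a simple neighbour of a full vertex leaves one of two slots unclaimed -/
theorem five (hR : StRange) {h : K.H} (hv : K.vf h = true) (hm : K.m (K.rv h) = 2)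
    (h1 : K.clm true (K.r false (K.r false h)) = true)
    (h2 : K.clm false (K.r true (K.r true h)) = true) : False := by
  have hv1 : K.vf (K.r false (K.r false h)) = true := vf_r K (vf_r K hv _) _
  have hv2 : K.vf (K.r true (K.r true h)) = true := vf_r K (vf_r K hv _) _
  obtain ⟨s1, hs1⟩ := lead_of_clm K hv1 h1
  obtain ⟨s2, hs2⟩ := lead_of_clm K hv2 h2
  obtain ⟨A1, a1, a2, a3, a4⟩ := apex K hR hv1 hs1
  obtain ⟨A2, b1, b2, b3, b4⟩ := apex K hR hv2 hs2
  have e1 : K.r true (K.r true (K.r false (K.r false h))) = h := by simp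
  have e2 : K.r false (K.r false (K.r true (K.r true h))) = h := by simp
  rw [e1] at a4
  rw [e2] at b4
  have e3 : K.r false (K.rv h) = K.op (K.r true (K.rv h)) := K.r2' (o := true) hm
  rw [e3, K.ln_op'] at b4
  have e4 : K.r true (K.r true h) = K.op (K.r false (K.r false h)) := by
    have := K.r4 (o := true) (h := K.r false (K.r false h)) (by rw [K.m_r, K.m_r, vf_m K hv])
    rw [← this]
    simp
  rw [e4] at b1 b2
  rw [K.ln_op'] at b1
  rw [sg_op, K.ps_op] at b2
  have hne : K.ln (K.r false (K.r false h)) ≠ K.ln (K.r true (K.rv h)) := by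
    intro e
    have h3 : On K (K.ln (K.r false (K.r false h))) (K.vt h) := ⟨_, rfl, by rw [K.vt_r, K.vt_r]⟩
    have h4 : On K (K.ln (K.r false (K.r false h))) (K.vt (K.rv h)) := by
      rw [e]; exact ⟨_, rfl, by rw [K.vt_r]⟩
    have := on_edge K (vf_ray K hv) h3 h4
    exact ln_r2_ne K false (by rw [vf_m K hv]; norm_num) this
  have hA : K.vt A1 = K.vt A2 :=
    on_meet K ⟨A1, a1, rfl⟩ a4 ⟨A2, b1, rfl⟩ b4 hne
  have hp := K.ps_vt A1 A2 (a1.trans b1.symm) hA
  rw [hp] at a2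
  nlinarith

end Pool.Agent.Helper32.KBV
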