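import Pool.Agent.Helper32.KBV.VB

/-!
# Kobon triangles: types of the simple neighbours of a full vertex
-/

namespace Pool.Agent.Helper32.KBV

open Pool.Agent.Helper23.KB Finset

variable {n : ℕ} (K : KM n)

/-- two consecutive simple neighbours: the line goes on -/
lemma on_next {h : K.H} (hv : K.vf h = true) (hm : K.m (K.rv h) = 2) (o : Bool)
    (ho : K.m (K.rv (K.r o h)) = 2) :
    On K (K.ln (K.r true (K.rv h))) (K.vt (K.rv (K.r o (K.r o h)))) := by
  have f1 := K.third (vf_tr K hv o)
  have hv2 := vf_r K hv o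
  have f2 := K.third (vf_tr K hv2 o)
  have f3 : K.r (!o) (K.rv (K.r o h)) = K.op (K.r o (K.rv (K.r o h))) := K.r2' ho
  refine ⟨K.rv (K.r (!o) (K.rv (K.r o h))), ?_, ?_⟩
  · rw [K.ln_rv, f3, K.ln_op', ← f1, K.ln_rv]
    cases o
    · rfl
    · change K.ln (K.r (!true) (K.rv h)) = _
      rw [K.r2' hm, K.ln_op']
  · rw [f2, K.vt_r]

/-- the line through a simple neighbour is not the fourth line -/
lemma M_ne {h : K.H} (hv : K.vf h = true) :
    K.ln (K.r false (K.r false h)) ≠ K.ln (K.r true (K.rv h)) := by
  intro e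
  have h3 : On K (K.ln (K.r false (K.r false h))) (K.vt h) := ⟨_, rfl, by rw [K.vt_r, K.vt_r]⟩
  have h4 : On K (K.ln (K.r false (K.r false h))) (K.vt (K.rv h)) := by
    rw [e]; exact ⟨_, rfl, by rw [K.vt_r]⟩
  have := on_edge K (vf_ray K hv) h3 h4
  exact ln_r2_ne K false (by rw [vf_m K hv]; norm_num) this

/-- no three consecutive simple neighbours -/
lemma no_three {h : K.H} (hv : K.vf h = true) (hm : K.m (K.rv h) = 2)
    (h1 : K.m (K.rv (K.r true h)) = 2) (h2 : K.m (K.rv (K.r false h)) = 2) : False := by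
  have a1 := on_next K hv hm true h1
  have a2 := on_next K hv hm false h2
  have e4 : K.r true (K.r true h) = K.op (K.r false (K.r false h)) := by
    have := K.r4 (o := true) (h := K.r false (K.r false h)) (by rw [K.m_r, K.m_r, vf_m K hv])
    rw [← this]
    simp
  have hv1 : K.vf (K.r false (K.r false h)) = true := vf_r K (vf_r K hv _) _
  have hv2 : K.vf (K.r true (K.r true h)) = true := vf_r K (vf_r K hv _) _
  have b1 := ps_rv' K (vf_ray K hv1)
  have b2 := ps_rv' K (vf_ray K hv2)
  have c1 : K.ln (K.rv (K.r true (K.r true h))) = K.ln (K.r false (K.r false h)) := by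
    rw [K.ln_rv, e4, K.ln_op']
  have hA := on_meet K (⟨_, c1, rfl⟩ : On K (K.ln (K.r false (K.r false h))) _) a1
    ⟨_, K.ln_rv _, rfl⟩ a2 (M_ne K hv)
  have hp := K.ps_vt _ _ (c1.trans (K.ln_rv _).symm) hA
  rw [b1, b2, e4, K.ps_op, sg_op] at hp
  rcases sg_cases K (K.r false (K.r false h)) with e | e <;> rw [e] at hp <;> omega

theorem tIm : StIm := by
  intro n K k
  cases hi : K.ims (K.rv k)
  · simp
  · have hi' := hi
    unfold KM.ims at hi'
    simp only [Bool.and_eq_true, decide_eq_true_eq, K.rv_rv] at hi'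
    obtain ⟨⟨hv, hm⟩, -⟩ := hi'
    have hD : K.Dd k = true := by
      have := vf_Dd K hv
      rwa [K.Dd_rv] at this
    have t1 : K.tr true k = true := K.Dd_tr hD
    have t2 : K.tr false k = true := K.Dd_tr hD
    have no3 := no_three K hv (by rw [K.rv_rv, hm])
    rw [m_side K hv true, m_side K hv false, K.rv_rv] at no3
    simp only [Bool.not_true, Bool.not_false] at no3
    -- sectors at the simple vertex
    have s1 : K.tr false (K.r true k) = K.tr true k := K.tr_r true k
    have s2 : K.tr true (K.r false k) = K.tr false k := K.tr_r false k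
    have o1 : K.op k = K.r true (K.r true k) := (K.r2 hm).symm
    have o2 : K.op k = K.r false (K.r false k) := (K.r2 hm).symm
    have s3 : K.tr false (K.op k) = K.tr true (K.r true k) := by
      rw [o1]; exact K.tr_r true _
    have s4 : K.tr true (K.op k) = K.tr false (K.r false k) := by
      rw [o2]; exact K.tr_r false _
    have D1 : K.Dd (K.r true k) = K.tr true (K.r true k) := by
      unfold KM.Dd; rw [s1, t1, Bool.and_true]
    have D2 : K.Dd (K.r false k) = K.tr false (K.r false k) := by
      unfold KM.Dd; rw [s2, t2, Bool.true_and]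
    have D3 : K.Dd (K.op k) = (K.tr false (K.r false k) && K.tr true (K.r true k)) := by
      unfold KM.Dd; rw [s3, s4]
    have G1 : K.Sg (K.r true k) = !(K.tr true (K.r true k)) := by
      unfold KM.Sg; rw [s1, t1]; cases K.tr true (K.r true k) <;> rfl
    have G2 : K.Sg (K.r false k) = !(K.tr false (K.r false k)) := by
      unfold KM.Sg; rw [s2, t2]; cases K.tr false (K.r false k) <;> rfl
    have D1' : K.Dd (K.nx k) = K.tr true (K.r true k) := D1
    have D2' : K.Dd (K.nx.symm k) = K.tr false (K.r false k) := D2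
    unfold KM.v1 KM.v2 KM.v3 KM.v4 KM.e2 KM.s2 KM.s4
    rw [hi, hD, Bool.not_true, Bool.not_false, G1, G2, D1, D2, D3, D1', D2']
    simp only [hm, decide_true, Bool.true_and]
    have hc : ¬ (K.m (K.rv (K.r true k)) = 2 ∧ K.m (K.rv (K.r false k)) = 2) :=
      fun h => no3 h.2 h.1
    by_cases c1 : K.m (K.rv (K.r true k)) = 2 <;> by_cases c2 : K.m (K.rv (K.r false k)) = 2
    · exact (hc ⟨c1, c2⟩).elim
    all_goals
      simp only [c1, c2, decide_true, decide_false]
      cases K.tr true (K.r true k) <;> cases K.tr false (K.r false k) <;>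
      cases decide (K.rv (K.op k) = K.op k) <;> decide

end Pool.Agent.Helper32.KBV
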