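import Pool.Agent.Helper32.KBV.Geo

/-!
# Kobon triangles: special neighbours of a full vertex kill two more slots
-/

namespace Pool.Agent.Helper32.KBV

open Pool.Agent.Helper23.KB Finset

variable {n : ℕ} (K : KM n)

/-- the outer edge on side `o` of a half-edge at a simple vertex -/
def ou (o : Bool) (k : K.H) : K.H := K.r (!o) (K.rv k)

lemma third' {o : Bool} {h : K.H} (ht : K.tr o h = true) :
    K.rv (ou K o h) = K.r o (K.rv (K.r o h)) := K.third ht

/-- general form of the killed slot -/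
theorem kill (hR : StRange) (o : Bool) {h : K.H} (hv : K.vf h = true) (hs : K.s4 (K.rv h) = true)
    (m1 : K.m (K.rv (K.r o (K.rv h))) = 3) (m2 : K.m (K.rv (K.op (K.rv h))) = 3)
    (m3 : K.m (K.rv (K.r (!o) (K.rv h))) = 3)
    (hd : K.Dd (K.r (!o) (K.rv (K.r o (K.rv h)))) = true) :
    K.clm (!o) (K.r o (K.r o (K.r o h))) = false := by
  by_contra hc
  rw [Bool.not_eq_false] at hc
  have hm := vf_m K hv
  have hv3 : K.vf (K.r o (K.r o (K.r o h))) = true := vf_r K (vf_r K (vf_r K hv _) _) _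
  obtain ⟨s, hls⟩ := lead_of_clm K hv3 hc
  obtain ⟨A, a1, a2, -, a4⟩ := apex K hR hv3 hls
  have e1 : K.r (!o) (K.r (!o) (K.r o (K.r o (K.r o h)))) = K.r o h := by
    rw [K.r_r, K.r_r]
  rw [e1] at a4
  -- data at x
  unfold KM.s4 at hs
  simp only [Bool.and_eq_true, decide_eq_true_eq] at hs
  obtain ⟨⟨⟨⟨mx, d1⟩, d2⟩, d3⟩, d4⟩ := hs
  set X := K.rv h with hX
  have hXh : K.rv X = h := K.rv_rv h
  -- all four half-edges are double
  have dall : ∀ o', K.Dd (K.r o' X) = true := by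
    intro o'; cases o'
    · exact d4
    · exact d2
  have hop : K.op X = K.r o (K.r o X) := (K.r2 mx).symm
  have hop2 : K.op X = K.r (!o) (K.r (!o) X) := (K.r2 mx).symm
  -- U = N1 -> x
  set U := K.rv (K.r o X) with hU
  set W := K.rv (K.r o h) with hW
  set Y := K.rv (K.op X) with hY
  set E1 := K.r (!o) U with hE1
  -- W: r o W = N3 -> x
  have f1 : K.r o W = K.rv (K.r (!o) X) := by
    have := K.third (vf_tr K hv o)
    exact this.symm
  have mW : K.m W = 3 := by
    have : K.m (K.r o W) = 3 := by rw [f1]; exact m3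
    rwa [K.m_r] at this
  have f2 : K.r o (K.r o W) = K.op (K.r (!o) W) := by
    have := K.r3 (o := o) (h := K.r (!o) W) (by rw [K.m_r, mW])
    rw [← this, K.r_r']
  -- q
  have f3 : K.rv (K.r o (K.r o W)) = K.r (!o) Y := by
    have ht : K.tr (!o) (K.r (!o) X) = true := K.Dd_tr (dall _)
    have := K.third ht
    rw [Bool.not_not, ← hop2] at this
    rw [f1]
    exact this
  have f4 : K.rv (K.r o Y) = E1 := by
    have ht : K.tr (!o) (K.op X) = true := K.Dd_tr d3
    have := K.third ht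
    rw [Bool.not_not] at this
    rw [hop, K.r_r] at this
    rw [hY, hop]
    exact this
  have f4' : K.rv E1 = K.r o Y := by rw [← f4, K.rv_rv]
  have mY : K.m Y = 3 := m2
  have f5 : K.r o (K.r o Y) = K.op (K.r (!o) Y) := by
    have := K.r3 (o := o) (h := K.r (!o) Y) (by rw [K.m_r, mY])
    rw [← this, K.r_r']
  -- outer triangle
  have f6 : K.rv (K.r o (K.r o Y)) = K.r (!o) (K.rv (K.r (!o) E1)) := by
    have ht : K.tr (!o) E1 = true := K.Dd_tr hd
    have := K.third ht
    rw [Bool.not_not, f4'] at this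
    exact this
  have mU : K.m U = 3 := m1
  have f7 : K.r o U = K.rv (K.r (!o) h) := by
    have ht : K.tr o X = true := K.Dd_tr d1
    have := K.third ht
    rw [hXh] at this
    exact this.symm
  have f8 : K.r (!o) E1 = K.fw (K.r (!o) h) := by
    have := K.r3 (o := !o) (h := K.r o U) (by rw [K.m_r, mU])
    rw [K.r_r] at this
    unfold KM.fw
    rw [← f7, ← this]
  -- rays
  have rh : K.rv (K.r (!o) h) ≠ K.r (!o) h := vf_ray K (vf_r K hv _)
  have rE : K.rv (K.r (!o) E1) ≠ K.r (!o) E1 := by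
    have ht : K.tr (!o) E1 = true := K.Dd_tr hd
    have := K.tr_r_self ht
    exact K.tr_ray this
  -- Z1
  set Z := K.rv (K.r (!o) E1) with hZ
  have z1 : K.ln Z = K.ln (K.r (!o) h) := by
    rw [hZ, K.ln_rv, f8, ln_fw]
  have z2 : K.ps Z = K.ps (K.r (!o) h) + 2 * sg K (K.r (!o) h) := by
    rw [hZ, ps_rv' K rE, f8, ps_fw K rh, sg_fw K rh]
    ring
  -- Q
  have q1 : K.ln (K.r (!o) W) = K.ln (K.r (!o) Y) := by
    rw [← f3, K.ln_rv, f2, K.ln_op']
  have z3 : On K (K.ln (K.r (!o) W)) (K.vt Z) := by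
    refine ⟨K.rv (K.r o (K.r o Y)), ?_, ?_⟩
    · rw [K.ln_rv, f5, K.ln_op', q1]
    · rw [f6, K.vt_r]
  have hop3 : K.r o (K.r o (K.r o h)) = K.op (K.r (!o) h) := by
    have := K.r4 (o := o) (h := K.r (!o) h) (by rw [K.m_r, hm])
    rw [← this, K.r_r']
  rw [hop3] at a1 a2
  rw [K.ln_op'] at a1
  rw [sg_op, K.ps_op] at a2
  have hne : K.ln (K.r (!o) h) ≠ K.ln (K.r (!o) W) := by
    intro e
    have ray : K.rv (K.r o h) ≠ K.r o h := vf_ray K (vf_r K hv _)
    have h3 : On K (K.ln (K.r (!o) h)) (K.vt (K.r o h)) := ⟨_, rfl, by rw [K.vt_r, K.vt_r]⟩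
    have h4 : On K (K.ln (K.r (!o) h)) (K.vt (K.rv (K.r o h))) := by
      rw [e]; exact ⟨_, rfl, by rw [K.vt_r]⟩
    have h5 := on_edge K ray h3 h4
    have h6 := ln_r2_ne K o (h := K.r (!o) h) (by rw [K.m_r, hm]; norm_num)
    rw [K.r_r'] at h6
    exact h6 h5.symm
  have hA : K.vt A = K.vt Z := on_meet K ⟨A, a1, rfl⟩ a4 ⟨Z, z1, rfl⟩ z3 hne
  have hp := K.ps_vt A Z (a1.trans z1.symm) hA
  rw [hp, z2] at a2
  have := sg_sq K (K.r (!o) h)
  nlinarith

/-- the data of a special neighbour -/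
lemma spc_iff (h : K.H) : K.spc h = true ↔ K.vf h = true ∧ K.s4 (K.rv h) = true ∧
    K.m (K.rv (K.nx (K.rv h))) = 3 ∧ K.m (K.rv (K.op (K.rv h))) = 3 ∧
    K.m (K.rv (K.nx.symm (K.rv h))) = 3 ∧
    K.Dd (K.nx.symm (K.rv (K.nx (K.rv h)))) = true ∧
    K.Dd (K.nx.symm (K.rv (K.op (K.rv h)))) = true := by
  unfold KM.spc
  simp only [Bool.and_eq_true, decide_eq_true_eq]
  tauto

lemma s4_m {h : K.H} (hs : K.s4 h = true) : K.m h = 2 := by
  unfold KM.s4 at hs
  simp only [Bool.and_eq_true, decide_eq_true_eq] at hs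
  exact hs.1.1.1.1

lemma s4_D {h : K.H} (hs : K.s4 h = true) : K.Dd h = true ∧ K.Dd (K.nx h) = true ∧
    K.Dd (K.op h) = true ∧ K.Dd (K.nx.symm h) = true := by
  unfold KM.s4 at hs
  simp only [Bool.and_eq_true, decide_eq_true_eq] at hs
  tauto

/-- killed slots of a special neighbour -/
theorem spc_kill (hR : StRange) {h : K.H} (hs : K.spc h = true) :
    K.clm false (K.r true (K.r true (K.r true h))) = false ∧
      K.clm true (K.r false (K.r false (K.r false h))) = false := by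
  rw [spc_iff] at hs
  obtain ⟨hv, h4, m1, m2, m3, d1, d2⟩ := hs
  refine ⟨?_, ?_⟩
  · exact kill K hR true hv h4 m1 m2 m3 d1
  · refine kill K hR false hv h4 m3 m2 m1 ?_
    have hD := s4_D K h4
    have ht : K.tr true (K.op (K.rv h)) = true := K.Dd_tr hD.2.2.1
    have h5 := K.third ht
    have h6 : K.r true (K.op (K.rv h)) = K.r false (K.rv h) := by
      have := K.r2 (o := false) (h := K.rv h) (s4_m K h4)
      rw [← this]
      exact K.r_r' true _
    rw [h6] at h5
    change K.Dd (K.r true (K.rv (K.r false (K.rv h)))) = true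
    rw [← h5, K.Dd_rv]
    exact d2

end Pool.Agent.Helper32.KBV
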