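import Pool.Agent.Helper32.KBV.Straight

/-!
# Sixteen lines with 72 triangles
-/

namespace Pool.Agent.Helper32.KBV

open Pool.Agent.Helper30.KO Pool.Agent.Helper30.KP

/-- slopes and intercepts of sixteen lines -/
def l16 : List (ℤ × ℤ) := [(-107, -24), (-74, -140), (12, 173), (34, 6), (36, 40), (50, -97), (58,
  -4), (60, -30), (65, 550), (69, 91), (79, 5), (80, 35), (97, -135), (124, -9), (131, -75), (397,
  994)]

/-- their triangles -/
def t16 : List (ℕ × ℕ × ℕ) := [(0, 1, 12), (0, 2, 9), (0, 2, 15), (0, 3, 10), (0, 3, 11), (0, 4,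
  9), (0, 4, 11), (0, 5, 12), (0, 5, 14), (0, 6, 10), (0, 6, 13), (0, 7, 13), (0, 7, 14), (0, 8,
  15), (1, 2, 8), (1, 2, 15), (1, 3, 9), (1, 3, 11), (1, 4, 9), (1, 4, 15), (1, 5, 13), (1, 5,
  14), (1, 6, 10), (1, 6, 11), (1, 7, 10), (1, 7, 13), (1, 12, 14), (2, 3, 5), (2, 4, 5), (2, 4,
  7), (2, 6, 7), (2, 6, 12), (2, 9, 13), (2, 10, 12), (2, 10, 14), (2, 11, 13), (2, 11, 14), (3,
  4, 8), (3, 4, 15), (3, 5, 12), (3, 6, 13), (3, 6, 14), (3, 7, 12), (3, 7, 14), (3, 9, 15), (3,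
  10, 13), (4, 6, 12), (4, 6, 14), (4, 7, 12), (4, 10, 13), (4, 10, 14), (4, 11, 13), (5, 6, 8),
  (5, 6, 9), (5, 7, 9), (5, 7, 11), (5, 10, 11), (5, 10, 15), (5, 13, 15), (6, 9, 15), (6, 11,
  15), (7, 10, 15), (7, 11, 15), (8, 9, 10), (8, 11, 12), (8, 13, 14), (9, 10, 12), (9, 11, 12),
  (9, 11, 14), (9, 13, 14), (12, 13, 15), (12, 14, 15)]

theorem ok16 : allOK l16 15 t16 = true := by decide +kernel

/-- sixteen straight lines with at least 72 counted triangles -/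
theorem lower16 : ∃ L : Finset (Set Plane), L.card = 16 ∧ (∀ ℓ ∈ L, IsLine ℓ) ∧
    (72 : ℕ∞) ≤ {V : Finset Plane | Counted L V}.encard := straight l16 ok16

end Pool.Agent.Helper32.KBV
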