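import Pool.Agent.Helper30.KP.Main

/-!
# Explicit arrangements of straight lines with integer coefficients
-/

namespace Pool.Agent.Helper32.KBV

open Pool.Agent.Helper30.KO Pool.Agent.Helper30.KP

/-- slope and intercept of the line `q` -/
def mz (l : List (ℤ × ℤ)) (q : ℕ) : ℤ := (l.getD q (0, 0)).1
def bz (l : List (ℤ × ℤ)) (q : ℕ) : ℤ := (l.getD q (0, 0)).2

/-- the determinant of three lines `y = m x + b` -/
def dz (l : List (ℤ × ℤ)) (i j k : ℕ) : ℤ :=
  (mz l j - mz l i) * (bz l k - bz l i) - (mz l k - mz l i) * (bz l j - bz l i)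

/-- orientation of the pair -/
def wz (l : List (ℤ × ℤ)) (i j : ℕ) : ℤ := mz l j - mz l i

def sepOK (l : List (ℤ × ℤ)) (a b c q : ℕ) : Bool :=
  let x := dz l q a b * wz l a b
  let y := dz l q a c * wz l a c
  let z := dz l q b c * wz l b c
  (decide (0 ≤ x) && decide (0 ≤ y) && decide (0 ≤ z)) ||
    (decide (x ≤ 0) && decide (y ≤ 0) && decide (z ≤ 0))

def triOK (l : List (ℤ × ℤ)) (M a b c : ℕ) : Bool :=
  decide (a < b) && decide (b < c) && decide (c ≤ M) && !(decide (dz l a b c = 0)) &&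
    (List.range (M + 1)).all (fun q => decide (q = a) || decide (q = b) || decide (q = c) ||
      sepOK l a b c q)

def parOK (l : List (ℤ × ℤ)) (M : ℕ) : Bool :=
  (List.range (M + 1)).all (fun j => (List.range j).all (fun i => !(decide (wz l i j = 0))))

def allOK (l : List (ℤ × ℤ)) (M : ℕ) (T : List (ℕ × ℕ × ℕ)) : Bool :=
  parOK l M && T.all (fun t => triOK l M t.1 t.2.1 t.2.2) && decide T.Nodup

variable (l : List (ℤ × ℤ))

/-- coefficients of the lines -/
def al (q : ℕ) : ℝ := -(mz l q : ℝ)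
def be (_q : ℕ) : ℝ := 1
def ga (q : ℕ) : ℝ := (bz l q : ℝ)

lemma Wd_z (i j : ℕ) : Wd (al l) be i j = (wz l i j : ℝ) := by
  unfold Wd al be wz
  push_cast
  ring

lemma Dt_z (i j k : ℕ) : Dt (al l) be (ga l) i j k = (dz l i j k : ℝ) := by
  unfold Dt al be ga dz
  push_cast
  ring

lemma sep_z {a b c q : ℕ} (h : sepOK l a b c q = true) :
    (0 ≤ Dt (al l) be (ga l) q a b * Wd (al l) be a b ∧
      0 ≤ Dt (al l) be (ga l) q a c * Wd (al l) be a c ∧
      0 ≤ Dt (al l) be (ga l) q b c * Wd (al l) be b c) ∨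
    (Dt (al l) be (ga l) q a b * Wd (al l) be a b ≤ 0 ∧
      Dt (al l) be (ga l) q a c * Wd (al l) be a c ≤ 0 ∧
      Dt (al l) be (ga l) q b c * Wd (al l) be b c ≤ 0) := by
  simp only [Dt_z, Wd_z]
  unfold sepOK at h
  simp only [Bool.or_eq_true, Bool.and_eq_true, decide_eq_true_eq] at h
  rcases h with ⟨⟨h1, h2⟩, h3⟩ | ⟨⟨h1, h2⟩, h3⟩
  · left; exact ⟨by exact_mod_cast h1, by exact_mod_cast h2, by exact_mod_cast h3⟩
  · right; exact ⟨by exact_mod_cast h1, by exact_mod_cast h2, by exact_mod_cast h3⟩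

lemma par_z {M : ℕ} (h : parOK l M = true) : ∀ i j, i < j → j ≤ M → Wd (al l) be i j ≠ 0 := by
  intro i j hij hj
  unfold parOK at h
  rw [List.all_eq_true] at h
  have h1 := h j (List.mem_range.mpr (by omega))
  rw [List.all_eq_true] at h1
  have h2 := h1 i (List.mem_range.mpr hij)
  simp only [Bool.not_eq_true', decide_eq_false_iff_not] at h2
  rw [Wd_z]
  exact_mod_cast h2

lemma tri_z {M : ℕ} (hp : parOK l M = true) {a b c : ℕ} (h : triOK l M a b c = true) :
    Tri (al l) be (ga l) M a b c := by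
  unfold triOK at h
  simp only [Bool.and_eq_true, decide_eq_true_eq, Bool.not_eq_true', decide_eq_false_iff_not,
    List.all_eq_true, List.mem_range, Bool.or_eq_true] at h
  obtain ⟨⟨⟨⟨hab, hbc⟩, hc⟩, hD⟩, hq⟩ := h
  have hW := par_z l hp
  refine ⟨hab, hbc, hc, ?_, hW a b hab (by omega), hW a c (by omega) hc, hW b c hbc hc, ?_⟩
  · rw [Dt_z]; exact_mod_cast hD
  · intro q hqM n1 n2 n3
    rcases hq q (by omega) with ((h1 | h1) | h1) | h1
    · exact absurd h1 n1
    · exact absurd h1 n2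
    · exact absurd h1 n3
    · exact sep_z l h1

/-- a decidable check gives an arrangement of straight lines with the listed triangles -/
theorem straight {M : ℕ} {T : List (ℕ × ℕ × ℕ)} (h : allOK l M T = true) :
    ∃ L : Finset (Set Plane), L.card = M + 1 ∧ (∀ ℓ ∈ L, IsLine ℓ) ∧
      (T.length : ℕ∞) ≤ {V : Finset Plane | Counted L V}.encard := by
  classical
  unfold allOK at h
  simp only [Bool.and_eq_true, decide_eq_true_eq, List.all_eq_true] at h
  obtain ⟨⟨hp, hT⟩, hnd⟩ := h
  have hW := par_z l hp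
  have hne : ∀ q, q ≤ M → al l q ≠ 0 ∨ be q ≠ 0 := fun q _ => Or.inr (by unfold be; norm_num)
  have hF : ∀ t ∈ T.toFinset, Tri (al l) be (ga l) M t.1 t.2.1 t.2.2 := fun t ht =>
    tri_z l hp (hT t (List.mem_toFinset.mp ht))
  refine ⟨(Finset.range (M + 1)).image (fl (al l) be (ga l)), ?_, ?_, ?_⟩
  · rw [Finset.card_image_of_injOn, Finset.card_range]
    intro x hx y hy hxy
    have hx' := Finset.mem_range.mp (Finset.mem_coe.mp hx)
    have hy' := Finset.mem_range.mp (Finset.mem_coe.mp hy)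
    by_contra hne'
    rcases lt_or_gt_of_ne hne' with g | g
    · exact fl_ne (hne x (by omega)) (hW x y g (by omega)) hxy
    · exact fl_ne (hne y (by omega)) (hW y x g (by omega)) hxy.symm
  · intro ℓ hℓ
    obtain ⟨q, hq, rfl⟩ := Finset.mem_image.mp hℓ
    exact fl_isLine (hne q (by have := Finset.mem_range.mp hq; omega))
  · have hcard : (T.toFinset.image (vs (al l) be (ga l))).card = T.length := by
      rw [Finset.card_image_of_injOn (vs_inj hW hF), List.toFinset_card_of_nodup hnd]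
    rw [← hcard, ← Set.encard_coe_eq_coe_finsetCard]
    apply Set.encard_le_encard
    intro V hV
    obtain ⟨⟨a, b, c⟩, ht, rfl⟩ := Finset.mem_image.mp (Finset.mem_coe.mp hV)
    apply (hF _ ht).counted hne
    intro ℓ
    rw [Finset.mem_coe, Finset.mem_image]
    constructor
    · rintro ⟨q, hq, rfl⟩
      exact ⟨q, by have := Finset.mem_range.mp hq; omega, rfl⟩
    · rintro ⟨q, hq, rfl⟩
      exact ⟨q, by rw [Finset.mem_range]; omega, rfl⟩

end Pool.Agent.Helper32.KBV
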